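import Pool.Agent.Q88.MD.Stm

/-! # Project MD, job HTW -/

set_option autoImplicit false

open MeasureTheory Set Filter Topology
open scoped ENNReal NNReal

noncomputable section

namespace Pool.Agent.Q137.MD.HTW

open Pool.Agent.Q88.MD

lemma pz_mem {g : ℝ} (hg : 0 < g) {x : ℝ} (hx : 0 < x) : 0 < pz g x ∧ pz g x < 1 := by
  unfold pz
  refine ⟨by positivity, ?_⟩
  rw [div_lt_one (by linarith)]
  linarith

theorem htw (h : S_inv) (h1 : S_str) : S_htw := by
  intro g lam q hg hlam hq H
  obtain ⟨ha, hinv, -⟩ := h g lam q hg hlam hq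
  obtain ⟨hle, hlt⟩ := h1 g lam q hg hlam hq
  have hlt := hlt H
  have h1a : za g lam q ≤ 1 := min_le_left _ _
  have h1b : 1 ≤ zb g lam q := le_max_left _ _
  have key : ∀ z ∈ Icc (za g lam q) (zb g lam q), 2 * th g lam q < H2 g lam q z := by
    intro z hz
    have hzp : 0 < z := lt_of_lt_of_le ha hz.1
    obtain ⟨p0, p1⟩ := pz_mem hg hzp
    have e := hle z hz
    have e0 := hle _ (hinv z hz).1
    have e1 := hle _ (hinv z hz).2
    unfold H2
    rcases hlt z hz with hh | hh
    · nlinarith [mul_lt_mul_of_pos_left hh p0, mul_le_mul_of_nonneg_left e1 (by linarith : (0:ℝ) ≤ 1 - pz g z)]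
    · nlinarith [mul_lt_mul_of_pos_left hh (by linarith : (0:ℝ) < 1 - pz g z),
        mul_le_mul_of_nonneg_left e0 p0.le]
  have hpz : ∀ F : ℝ → ℝ, ContinuousOn F (Icc (za g lam q) (zb g lam q)) →
      (∀ z ∈ Icc (za g lam q) (zb g lam q), 0 < F z) →
      ContinuousOn (fun z => pz g (F z)) (Icc (za g lam q) (zb g lam q)) := by
    intro F hF hpos
    unfold pz
    exact hF.div (hF.add continuousOn_const) fun z hz => by
      have := hpos z hz
      positivity
  have c0 : ContinuousOn (fun z => G0 g lam z) (Icc (za g lam q) (zb g lam q)) := by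
    unfold G0
    fun_prop
  have c1 : ContinuousOn (fun z => G1 g q z) (Icc (za g lam q) (zb g lam q)) := by
    unfold G1
    refine ContinuousOn.div (by fun_prop) (by fun_prop) fun z hz => ?_
    have : 0 < z := lt_of_lt_of_le ha hz.1
    positivity
  have d : ContinuousOn (fun z => pz g z) (Icc (za g lam q) (zb g lam q)) :=
    hpz (fun z => z) continuousOn_id fun z hz => lt_of_lt_of_le ha hz.1
  have d0 := hpz _ c0 fun z hz => lt_of_lt_of_le ha (hinv z hz).1.1
  have d1 := hpz _ c1 fun z hz => lt_of_lt_of_le ha (hinv z hz).2.1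
  have hc : ContinuousOn (H2 g lam q) (Icc (za g lam q) (zb g lam q)) := by
    unfold H2
    refine ContinuousOn.add (ContinuousOn.add ?_ (ContinuousOn.mul d ?_))
      (ContinuousOn.mul (continuousOn_const.sub d) ?_)
    · exact Real.binEntropy_continuous.comp_continuousOn d
    · exact Real.binEntropy_continuous.comp_continuousOn d0
    · exact Real.binEntropy_continuous.comp_continuousOn d1
  obtain ⟨w, hw, hmin⟩ := isCompact_Icc.exists_isMinOn
    (⟨1, h1a, h1b⟩ : (Icc (za g lam q) (zb g lam q)).Nonempty) hc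
  refine ⟨(H2 g lam q w - 2 * th g lam q) / 4, ?_, ?_⟩
  · have := key w hw
    linarith
  · intro z hz
    have : H2 g lam q w ≤ H2 g lam q z := hmin hz
    linarith

end Pool.Agent.Q137.MD.HTW
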