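import Pool.Agent.Q88.MD.Stm

/-! # Project MD, job STR -/

set_option autoImplicit false

open MeasureTheory Set Filter Topology
open scoped ENNReal NNReal

noncomputable section

namespace Pool.Agent.Q137.MD.STR

open Pool.Agent.Q88.MD

lemma pz_mono {g : ℝ} (hg : 0 < g) {x y : ℝ} (hx : 0 < x) (hxy : x < y) : pz g x < pz g y := by
  unfold pz
  rw [div_lt_div_iff₀ (by linarith) (by linarith)]
  nlinarith

lemma pz_mem {g : ℝ} (hg : 0 < g) {x : ℝ} (hx : 0 < x) : 0 < pz g x ∧ pz g x < 1 := by
  unfold pz
  refine ⟨by positivity, ?_⟩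
  rw [div_lt_one (by linarith)]
  linarith

lemma th_le {g : ℝ} (hg : 0 < g) {a b z : ℝ} (ha : 0 < a) (haz : a ≤ z) (hzb : z ≤ b) :
    min (Real.binEntropy (pz g a)) (Real.binEntropy (pz g b)) ≤ Real.binEntropy (pz g z) := by
  rcases eq_or_lt_of_le haz with h | h
  · subst h
    exact min_le_left _ _
  rcases eq_or_lt_of_le hzb with h' | h'
  · subst h'
    exact min_le_right _ _
  have h1 := pz_mono hg ha h
  have h2 := pz_mono hg (ha.trans h) h'
  have ma := pz_mem hg ha
  have mb := pz_mem hg ((ha.trans h).trans h')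
  exact Real.strictConcave_binEntropy.concaveOn.min_le_of_mem_Icc ⟨ma.1.le, ma.2.le⟩
    ⟨mb.1.le, mb.2.le⟩ ⟨h1.le, h2.le⟩

lemma th_lt {g : ℝ} (hg : 0 < g) {a b z : ℝ} (ha : 0 < a) (h : a < z) (h' : z < b) :
    min (Real.binEntropy (pz g a)) (Real.binEntropy (pz g b)) < Real.binEntropy (pz g z) := by
  have h1 := pz_mono hg ha h
  have h2 := pz_mono hg (ha.trans h) h'
  have ma := pz_mem hg ha
  have mb := pz_mem hg ((ha.trans h).trans h')
  refine Real.strictConcave_binEntropy.lt_on_openSegment ⟨ma.1.le, ma.2.le⟩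
    ⟨mb.1.le, mb.2.le⟩ (h1.trans h2).ne ?_
  rw [openSegment_eq_Ioo (h1.trans h2)]
  exact ⟨h1, h2⟩

theorem str (h : S_inv) : S_str := by
  intro g lam q hg hlam hq
  obtain ⟨ha, hinv, -⟩ := h g lam q hg hlam hq
  have hz0a : za g lam q ≤ g / (lam - 1) := (min_le_right _ _).trans (min_le_left _ _)
  have hz1a : za g lam q ≤ q - g := (min_le_right _ _).trans (min_le_right _ _)
  have h1a : za g lam q ≤ 1 := min_le_left _ _
  have hz0b : g / (lam - 1) ≤ zb g lam q := (le_max_left _ _).trans (le_max_right _ _)
  have hz1b : q - g ≤ zb g lam q := (le_max_right _ _).trans (le_max_right _ _)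
  have h1b : 1 ≤ zb g lam q := le_max_left _ _
  have first : ∀ z ∈ Icc (za g lam q) (zb g lam q), th g lam q ≤ Real.binEntropy (pz g z) :=
    fun z hz => th_le hg ha hz.1 hz.2
  refine ⟨first, ?_⟩
  intro H z hz
  by_contra hcon
  rw [not_or, not_lt, not_lt] at hcon
  obtain ⟨c0, c1⟩ := hcon
  have hl : 0 < lam - 1 := by linarith
  have hzpos : 0 < z := lt_of_lt_of_le ha hz.1
  -- `z = z₀`
  have e0 : z = g / (lam - 1) := by
    by_contra hne
    have hG : G0 g lam z - g / (lam - 1) = (z - g / (lam - 1)) / lam := by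
      unfold G0
      field_simp
      ring
    have hlt : za g lam q < G0 g lam z ∧ G0 g lam z < zb g lam q := by
      rcases lt_or_gt_of_ne hne with hlt | hgt
      · have hd : z - g / (lam - 1) < 0 := by linarith
        have k1 : (z - g / (lam - 1)) / lam < 0 := div_neg_of_neg_of_pos hd (by linarith)
        have k2 : z - g / (lam - 1) < (z - g / (lam - 1)) / lam := by
          rw [lt_div_iff₀ (by linarith)]
          nlinarith
        exact ⟨by linarith [hz.1], by linarith⟩
      · have hd : 0 < z - g / (lam - 1) := by linarith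
        have k1 : 0 < (z - g / (lam - 1)) / lam := div_pos hd (by linarith)
        have k2 : (z - g / (lam - 1)) / lam < z - g / (lam - 1) := by
          rw [div_lt_iff₀ (by linarith)]
          nlinarith
        exact ⟨by linarith, by linarith [hz.2]⟩
    exact absurd (th_lt hg ha hlt.1 hlt.2) (not_lt.mpr c0)
  have e1 : z = q - g := by
    by_contra hne
    have hG : G1 g q z - (q - g) = (z - (q - g)) * (g / (z + g)) := by
      unfold G1
      have : z + g ≠ 0 := by positivity
      field_simp
      ring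
    have hf : 0 < g / (z + g) := by positivity
    have hf1 : g / (z + g) < 1 := by
      rw [div_lt_one (by linarith)]
      linarith
    have hlt : za g lam q < G1 g q z ∧ G1 g q z < zb g lam q := by
      rcases lt_or_gt_of_ne hne with hlt | hgt
      · have hd : z - (q - g) < 0 := by linarith
        have k1 : (z - (q - g)) * (g / (z + g)) < 0 := mul_neg_of_neg_of_pos hd hf
        have k2 : z - (q - g) < (z - (q - g)) * (g / (z + g)) := by nlinarith
        exact ⟨by linarith [hz.1], by linarith⟩
      · have hd : 0 < z - (q - g) := by linarith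
        have k1 : 0 < (z - (q - g)) * (g / (z + g)) := mul_pos hd hf
        have k2 : (z - (q - g)) * (g / (z + g)) < z - (q - g) := by nlinarith
        exact ⟨by linarith, by linarith [hz.2]⟩
    exact absurd (th_lt hg ha hlt.1 hlt.2) (not_lt.mpr c1)
  apply H
  refine ⟨by rw [← e0, ← e1], ?_⟩
  have hG0 : G0 g lam z = z := by
    rw [e0]
    unfold G0
    field_simp
    ring
  have hp : pz g (G0 g lam z) = 1 / lam := by
    rw [hG0, e0]
    unfold pz
    field_simp
    ring
  have hp1 : pz g 1 = 1 / (1 + g) := rfl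
  rw [← hp, ← hp1]
  exact c0.trans (first 1 ⟨h1a, h1b⟩)

end Pool.Agent.Q137.MD.STR
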